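import Pool.Agent.Helper83.HLD.Final
import Pool.Agent.Helper13.MRF.Final

/-!
# Averaged Hardy-Littlewood-Chowla in the critical range

`k` prime shifts are fixed, `r` prime shifts run over arbitrary intervals of length at least `K log X`, one shift of the
Liouville function runs over an arbitrary interval of length at least `K (log X) ^ k`; the other shifts of the Liouville
function may be fixed or may depend on the averaged prime shifts in any way (they are part of `g`). The ingredients, all
proved here from scratch: the Matomäki-Radziwiłł theorem at every scale and short exponential sums for bounded functions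
of `Ω` (project MR), an upper bound sieve for prime tuples, the moments of the prime tuples in short intervals, and an
argument with correlations which uses only the boundedness in mean square of the correlations of the prime tuples.
-/

set_option autoImplicit false

namespace Pool.Agent.Results.MP_e6fa8b_nt.AverageCriticalRange

open Finset

/-- `f` is the Liouville function, or `f n = b (Ω n) - m`, where `|b| ≤ 1` and `m` is the mean of `b (Ω n)`
over `n ≤ X`. -/
def Centred (X : ℕ) (f : ℕ → ℝ) : Prop :=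
  (∀ n, f n = (-1) ^ ArithmeticFunction.cardFactors n) ∨
    ∃ b : ℕ → ℝ, (∀ m, |b m| ≤ 1) ∧
      ∀ n, f n = b (ArithmeticFunction.cardFactors n) -
        (∑ m ∈ Icc 1 X, b (ArithmeticFunction.cardFactors m)) / X

/-- For distinct `a_1, ..., a_k`, every `r` and every `ε > 0` there are `K` and `X₀` such that for `X ≥ X₀`, `z_j ≤ X`,
`K log X ≤ B_j ≤ X`, `K (log X) ^ k ≤ H ≤ X`, `y ≤ X`, every centred `f` and all `g_b` with `|g_b| ≤ 1`: the sum over
`b_j ∈ (z_j, z_j + B_j]` and `h ∈ (y, y + H]` of
`|∑_{n ≤ X} Λ (n + a_1) ... Λ (n + a_k) Λ (n + b_1) ... Λ (n + b_r) g_b n f (n + h)|` is at most `ε B_1 ... B_r H X`. -/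
theorem result (k r : ℕ) (a : Fin k → ℕ) (ha : Function.Injective a) (ε : ℝ) (hε : 0 < ε) :
    ∃ (K : ℝ) (X₀ : ℕ), ∀ X : ℕ, X₀ ≤ X → ∀ z B : Fin r → ℕ, (∀ j, z j ≤ X) →
      (∀ j, K * Real.log X ≤ B j) → (∀ j, B j ≤ X) →
      ∀ H y : ℕ, K * Real.log X ^ k ≤ H → H ≤ X → y ≤ X →
      ∀ f : ℕ → ℝ, Centred X f → ∀ g : (Fin r → ℕ) → ℕ → ℂ, (∀ b n, ‖g b n‖ ≤ 1) →
        ∑ b ∈ Fintype.piFinset (fun j => Ioc (z j) (z j + B j)), ∑ h ∈ Ioc y (y + H), ‖∑ n ∈ Icc 1 X,
          (∏ i, (ArithmeticFunction.vonMangoldt (n + a i) : ℂ)) *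
            (∏ j, (ArithmeticFunction.vonMangoldt (n + b j) : ℂ)) * g b n * (f (n + h) : ℂ)‖ ≤
          ε * (∏ j, (B j : ℝ)) * H * X := by
  obtain ⟨K, X₀, h⟩ := Helper83.HLD.final
    (MRC.expx_bridge MRP.mrchi0x_holds MRP.mrchi1x_holds MRP.lawx) MRP.lawx k r a ha ε hε
  exact ⟨K, X₀, h⟩

end Pool.Agent.Results.MP_e6fa8b_nt.AverageCriticalRange
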