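import Pool.Agent.Helper83.BD.All

/-!
# Hardy-Littlewood-Chowla on average below the critical range, with arbitrary coefficients

`f` is the Liouville function, or any function of `Ω` mod `q` of mean zero; `Λ (n + a_1) ... Λ (n + a_k)` is the product of the
fixed prime shifts, `g` an arbitrary bounded function (further Liouville shifts, characters, ...). The average over the shifts `h` in
an interval of length `H` of the absolute values of the sums of `Λ (n + a_1) ... Λ (n + a_k) g (n) f (n + h)` is at most `c(u) + o(1)`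
times the trivial bound as soon as `H ≥ (log X) ^ (k / (1 + u))`, and the same along all dilates `d ∈ [D, 2 D)`, if
`D H (H / D) ^ u ≥ (log X) ^ k`.
-/

set_option autoImplicit false

namespace Pool.Agent.Results.MP_e6fa8b_nt.BelowCritical

open Finset

/-- For every `0 < u < 1` there is `c < 1` (for `u < 1/2` one can take `c = (1 + log (1 / (2 u))) ^ (-1/2)`) such that for distinct
`a_1, ..., a_k`, `b` bounded by `1` and periodic mod `q` with sum `0` over a period, and `ε > 0` there are `H₀` and `X₀` such that for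
`X ≥ X₀`, `H₀ D ≤ H`, `D H ≤ X`, `y ≤ X`, `(log X) ^ k ≤ D H (H / D) ^ u` and all `g_d : ℕ → ℂ` bounded by `1` the sum over
`D ≤ d < 2 D` and `y < h ≤ y + H` of the absolute value of the sum of `Λ (n + a_1) ... Λ (n + a_k) g_d (n) b (Ω (n + h))` over the
`n ≤ X` with `d ∣ n + h` is at most `c H ∑_{n ≤ X} Λ (n + a_1) ... Λ (n + a_k) + ε H X`. -/
theorem result (u : ℝ) (hu : 0 < u) (hu1 : u < 1) : ∃ c : ℝ, 0 < c ∧ c < 1 ∧
    (u < 1 / 2 → c = 1 / √(1 + Real.log (1 / (2 * u)))) ∧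
    ∀ (k : ℕ) (a : Fin k → ℕ), Function.Injective a → ∀ (q : ℕ) (b : ℕ → ℝ), 1 ≤ q → (∀ m, |b m| ≤ 1) →
      (∀ m, b (m + q) = b m) → ∑ i ∈ range q, b i = 0 → ∀ ε : ℝ, 0 < ε →
        ∃ H₀ X₀ : ℕ, ∀ X D H y : ℕ, X₀ ≤ X → 1 ≤ D → H₀ * D ≤ H → D * H ≤ X → y ≤ X →
          Real.log X ^ k ≤ D * H * ((H : ℝ) / D) ^ u → ∀ g : ℕ → ℕ → ℂ, (∀ d n, ‖g d n‖ ≤ 1) →
            ∑ d ∈ Ico D (2 * D), ∑ h ∈ Ioc y (y + H), ‖∑ n ∈ (Icc 1 X).filter (fun n => d ∣ n + h),
              (∏ i, (ArithmeticFunction.vonMangoldt (n + a i) : ℂ)) * g d n *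
                ((b (ArithmeticFunction.cardFactors (n + h)) : ℝ) : ℂ)‖ ≤
              c * H * ∑ n ∈ Icc 1 X, ∏ i, ArithmeticFunction.vonMangoldt (n + a i) + ε * H * X := by
  obtain ⟨c, hc0, hc1, hcu, h⟩ := Helper83.BD.below_all u hu hu1
  exact ⟨c, hc0, hc1, hcu, fun k a ha q b hq hb hper hzero ε hε => h a ha ⟨hq, hb, hper, hzero⟩ ε hε⟩

end Pool.Agent.Results.MP_e6fa8b_nt.BelowCritical
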