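import Pool.Agent.Helper39.SP.FinalPoly
import Pool.Agent.Helper39.SP.TwoPt
import Pool.Agent.Helper83.LB.Linnik

/-!
# Hardy-Littlewood-Chowla on average over sparse sets of shifts

`k` prime shifts are fixed and one shift of the Liouville function runs over a sparse set `S` of integers in an interval of length
`H`; the other shifts of the Liouville function are part of `g`. The only hypotheses on `S` are that the number of solutions of
`u_1 + ... + u_r = v_1 + ... + v_r` in `S` has the order of magnitude `|S| ^ (2 r) / H` of a dense set, for some `r`, and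
`|S| ≥ K (log X) ^ (k + δ k)`. The set of the values of a polynomial `P ∈ ℤ[x]` at the integers `m ≤ M` has this property by
Linnik's elementary estimate, so the shift may run over `P(1), ..., P(M)` as soon as `M ≥ K (log X) ^ (k + δ k)`.

The ingredients, all proved here from scratch: the Matomäki-Radziwiłł theorem and short exponential sums for bounded functions of
`Ω` (through the two-point averages), the fundamental lemma of the sieve, and high moments of the (sparse) convolution operators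
with the sieve weights of prime tuples: sums over closed walks, where the walks with many returns are controlled by the energy.
-/

set_option autoImplicit false

namespace Pool.Agent.Results.MP_e6fa8b_nt.SparseShifts

open Finset

/-- The number of pairs of `r`-tuples of elements of `S` with equal sums. -/
def energy (r : ℕ) (S : Finset ℕ) : ℕ :=
  (((Fintype.piFinset fun _ : Fin r => S) ×ˢ (Fintype.piFinset fun _ : Fin r => S)).filter
    fun u => ∑ i, u.1 i = ∑ i, u.2 i).card

/-- `f` is the Liouville function, or `f n = b (Ω n) - m`, where `|b| ≤ 1` and `m` is the mean of `b (Ω n)`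
over `n ≤ X`. -/
def Centred (X : ℕ) (f : ℕ → ℝ) : Prop :=
  (∀ n, f n = (-1) ^ ArithmeticFunction.cardFactors n) ∨
    ∃ b : ℕ → ℝ, (∀ m, |b m| ≤ 1) ∧
      ∀ n, f n = b (ArithmeticFunction.cardFactors n) -
        (∑ m ∈ Icc 1 X, b (ArithmeticFunction.cardFactors m)) / X

/-- Let `a_1, ..., a_k` be distinct, `δ, ε > 0`. (1) For all `r ≥ 1` and `A` there are `K`, `X₀` such that for `X ≥ X₀`, every
set `S ⊆ [1, H]` with `|S| ≥ K (log X) ^ (k (1 + δ))`, `K H ≤ X` and `energy r S * H ≤ A |S| ^ (2 r)`, `y ≤ X`, every centred `f` and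
every `g` with `|g| ≤ 1` the sum over `h ∈ S` of `|∑_{n ≤ X} Λ (n + a_1) ... Λ (n + a_k) g n f (n + y + h)|` is at most `ε |S| X`.
(2) For every polynomial `P ∈ ℤ[x]` of positive degree and leading coefficient there are `K`, `X₀` such that for `X ≥ X₀`,
`M ≥ K (log X) ^ (k (1 + δ))`, `K P(M) ≤ X` and `y`, `f`, `g` as before the sum over `m ≤ M` of
`|∑_{n ≤ X} Λ (n + a_1) ... Λ (n + a_k) g n f (n + y + max (P m) 0)|` is at most `ε M X`. -/
theorem result (k : ℕ) (a : Fin k → ℕ) (ha : Function.Injective a) (δ : ℝ) (hδ : 0 < δ) (ε : ℝ) (hε : 0 < ε) :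
    (∀ r : ℕ, 1 ≤ r → ∀ A : ℝ, 0 ≤ A → ∃ K X₀ : ℕ, ∀ X : ℕ, X₀ ≤ X → ∀ (S : Finset ℕ) (H y : ℕ), S ⊆ Icc 1 H →
      K * Real.log X ^ (k * (1 + δ)) ≤ S.card → K * H ≤ X → y ≤ X →
      (energy r S : ℝ) * H ≤ A * (S.card : ℝ) ^ (2 * r) →
      ∀ f : ℕ → ℝ, Centred X f → ∀ g : ℕ → ℂ, (∀ n, ‖g n‖ ≤ 1) →
        ∑ h ∈ S, ‖∑ n ∈ Icc 1 X, (∏ i, (ArithmeticFunction.vonMangoldt (n + a i) : ℂ)) * g n *
          (f (n + y + h) : ℂ)‖ ≤ ε * S.card * X) ∧
    (∀ P : Polynomial ℤ, 1 ≤ P.natDegree → 0 < P.leadingCoeff → ∃ K X₀ : ℕ, ∀ X M y : ℕ, X₀ ≤ X →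
      K * Real.log X ^ (k * (1 + δ)) ≤ M → K * P.eval (M : ℤ) ≤ X → y ≤ X →
      ∀ f : ℕ → ℝ, Centred X f → ∀ g : ℕ → ℂ, (∀ n, ‖g n‖ ≤ 1) →
        ∑ m ∈ Icc 1 M, ‖∑ n ∈ Icc 1 X, (∏ i, (ArithmeticFunction.vonMangoldt (n + a i) : ℂ)) * g n *
          (f (n + y + (P.eval (m : ℤ)).toNat) : ℂ)‖ ≤ ε * M * X) := by
  refine ⟨fun r hr A hA => ?_, fun P hP hl => ?_⟩
  · obtain ⟨K, X₀, h⟩ := Helper39.SP.final Helper39.SP.twoPt k a ha r hr A hA δ hδ ε hε
    refine ⟨K, X₀, fun X hX S H y hS hK hH hy hE f hf g hg => ?_⟩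
    have h1 := h X hX S H hS hK hH hE (fun n => f (n + y)) ⟨f, y, hf, hy, fun n => rfl⟩ g hg
    refine le_trans (le_of_eq ?_) h1
    refine Finset.sum_congr rfl fun t _ => ?_
    congr 1
    refine Finset.sum_congr rfl fun n _ => ?_
    rw [show n + y + t = n + t + y by ring]
  · obtain ⟨K, X₀, h⟩ := Helper39.SP.final_poly Helper39.SP.twoPt k a ha P hP hl (Helper83.LB.linnik P hP) δ hδ ε hε
    refine ⟨K, X₀, fun X M y hX hK hH hy f hf g hg => ?_⟩
    have h1 := h X M hX hK hH (fun n => f (n + y)) ⟨f, y, hf, hy, fun n => rfl⟩ g hg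
    refine le_trans (le_of_eq ?_) h1
    refine Finset.sum_congr rfl fun t _ => ?_
    congr 1
    refine Finset.sum_congr rfl fun n _ => ?_
    rw [show n + y + (P.eval (t : ℤ)).toNat = n + (P.eval (t : ℤ)).toNat + y by ring]

end Pool.Agent.Results.MP_e6fa8b_nt.SparseShifts
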