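import Pool.Agent.Helper8.UGU.Forms

/-!
# A uniform gap for the Liouville function along systems of linear forms

For every `l ≥ 1` there is `δ > 0` such that for every system of `l` pairwise non-proportional linear forms
`a_i n + b_i` (`a_i ≥ 1`, `b_i ≥ 0`; for `a_i = 1`: `l` distinct shifts) and every modulus `q ≥ 1` the sums of
`∏_i λ (a_i n + b_i)` over the residue classes modulo `q` in `[1, M]` are at most `(1 - δ) M / q` in absolute value, for
all scales `M` outside a set of logarithmic density `ε` in every long window `(N / K, N]`. The number `δ` depends on `l`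
only. The ingredients, all proved here from scratch: the Matomäki-Radziwiłł theorem in progressions (project MR), the
entropy decrement argument for arbitrary local test functions, a Gowers-Cauchy-Schwarz argument over cubes of primes in
one residue class (sieve, all constants uniform in the modulus), and a descent over `F₂[T]`.
-/

set_option autoImplicit false

namespace Pool.Agent.Results.MP_e6fa8b_nt.UniformGap

open Finset

/-- For all `l ≥ 1` there is `δ ∈ (0, 1)` such that for all `a_1, ..., a_l ≥ 1` and `b_1, ..., b_l ≥ 0` with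
`a_i b_j ≠ a_j b_i` for `i ≠ j`, every `q ≥ 1` and every `ε > 0` there is `K₀` with: for `N ≥ K ≥ K₀`, the sum of
`1 / M` over the `M ∈ (N / K, N]` for which some residue class `r` modulo `q` has
`|∑_{n ≤ M, n ≡ r (q)} ∏_i λ (a_i n + b_i)| > (1 - δ) M / q` is at most `ε log K`. -/
theorem result (l : ℕ) (hl : 1 ≤ l) : ∃ δ : ℝ, 0 < δ ∧ δ < 1 ∧
    ∀ a b : Fin l → ℕ, (∀ i, 1 ≤ a i) → (∀ i j, i ≠ j → a i * b j ≠ a j * b i) →
    ∀ q : ℕ, 1 ≤ q → ∀ ε : ℝ, 0 < ε → ∃ K₀ : ℕ, ∀ N K : ℕ, K₀ ≤ K → K ≤ N →
      ∑ M ∈ (Ioc (N / K) N).filter (fun M : ℕ => ∃ r < q, (1 - δ) * ((M : ℝ) / q) <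
        |∑ n ∈ (Icc 1 M).filter (fun n => n % q = r),
          ∏ i, (-1 : ℝ) ^ (ArithmeticFunction.cardFactors (a i * n + b i))|), 1 / (M : ℝ) ≤
        ε * Real.log K :=
  Pool.Agent.Helper8.UGU.gap_forms l hl

end Pool.Agent.Results.MP_e6fa8b_nt.UniformGap
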